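import Pool.Agent.Q264.LK.Stm

/-!
# Project LK (helper264), job BND: the boundary of a small connected set
-/

set_option autoImplicit false

open Finset
open scoped Classical

namespace Pool.Agent.Q150.LKC

open Pool.Agent.Q264.LK

/-- inner vertices have degree `2 k` -/
theorem deg_inner (k T : ℕ) {Γ : Type} [Fintype Γ] (π : Fin k → Equiv.Perm Γ)
    (hπ : ∀ x, Function.Injective fun j => π j x) (u : Fin (T + 1) × Γ) (h0 : 0 < u.1.val)
    (hT : u.1.val < T) : (univ.filter fun w => (lay k T π).Adj u w).card = 2 * k := by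
  let f : Fin k ⊕ Fin k → Fin (T + 1) × Γ :=
    Sum.elim (fun j => ((⟨u.1.val + 1, by omega⟩ : Fin (T + 1)), π j u.2))
      (fun j => ((⟨u.1.val - 1, by omega⟩ : Fin (T + 1)), (π j).symm u.2))
  have hfl : ∀ j, f (Sum.inl j) = ((⟨u.1.val + 1, by omega⟩ : Fin (T + 1)), π j u.2) := fun _ => rfl
  have hfr : ∀ j, f (Sum.inr j) = ((⟨u.1.val - 1, by omega⟩ : Fin (T + 1)), (π j).symm u.2) :=
    fun _ => rfl
  have hf : Function.Injective f := by
    rintro (a | a) (b | b) h
    · rw [hfl, hfl] at h
      have h1 : π a u.2 = π b u.2 := congrArg Prod.snd h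
      exact congrArg _ (hπ _ h1)
    · exfalso
      rw [hfl, hfr] at h
      have h1 : u.1.val + 1 = u.1.val - 1 := congrArg (fun w : Fin (T + 1) × Γ => w.1.val) h
      omega
    · exfalso
      rw [hfl, hfr] at h
      have h1 : u.1.val - 1 = u.1.val + 1 := congrArg (fun w : Fin (T + 1) × Γ => w.1.val) h
      omega
    · rw [hfr, hfr] at h
      have h1 : (π a).symm u.2 = (π b).symm u.2 := congrArg Prod.snd h
      have h2 : π a ((π a).symm u.2) = π b ((π a).symm u.2) := by
        rw [Equiv.apply_symm_apply, h1, Equiv.apply_symm_apply]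
      exact congrArg _ (hπ _ h2)
  have hS : (univ.filter fun w => (lay k T π).Adj u w) = univ.image f := by
    ext w
    rw [mem_filter, mem_image]
    constructor
    · rintro ⟨-, h⟩
      rcases h with ⟨h1, j, h2⟩ | ⟨h1, j, h2⟩
      · refine ⟨Sum.inl j, mem_univ _, ?_⟩
        rw [hfl]
        exact Prod.ext (Fin.ext h1.symm) h2.symm
      · refine ⟨Sum.inr j, mem_univ _, ?_⟩
        rw [hfr]
        refine Prod.ext (Fin.ext ?_) ?_
        · change u.1.val - 1 = w.1.val
          omega
        · change (π j).symm u.2 = w.2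
          rw [h2, Equiv.symm_apply_apply]
    · rintro ⟨j | j, -, rfl⟩
      · refine ⟨mem_univ _, Or.inl ⟨rfl, j, rfl⟩⟩
      · refine ⟨mem_univ _, Or.inr ⟨?_, j, ?_⟩⟩
        · change u.1.val = u.1.val - 1 + 1
          omega
        · change u.2 = π j ((π j).symm u.2)
          rw [Equiv.apply_symm_apply]
  rw [hS, card_image_of_injective _ hf, card_univ, Fintype.card_sum, Fintype.card_fin]
  ring

section

variable {V : Type} (G : SimpleGraph V) (S : Finset V)

theorem reach_induce {u v : V} (h : (res G S).Reachable u v) :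
    ∀ (hu : u ∈ S), ∃ hv : v ∈ S, (G.induce (S : Set V)).Reachable ⟨u, hu⟩ ⟨v, hv⟩ := by
  obtain ⟨w⟩ := h
  induction w with
  | nil => exact fun hu => ⟨hu, SimpleGraph.Reachable.refl _⟩
  | @cons a b c hab _ ih =>
    intro hu
    obtain ⟨hv, h⟩ := ih hab.2.2
    refine ⟨hv, SimpleGraph.Reachable.trans (SimpleGraph.Adj.reachable ?_) h⟩
    exact hab.1

variable {G S}

/-- the graph on `S` is a tree -/
theorem isTree [Fintype V] {R0 : ℕ} (hg : ((R0 + 1 : ℕ) : ℕ∞) < G.egirth) (hne : S.Nonempty)
    (hS : S.card ≤ R0) (hc : ∀ u ∈ S, ∀ v ∈ S, (res G S).Reachable u v) :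
    (G.induce (S : Set V)).IsTree := by
  have hconn : (G.induce (S : Set V)).Connected := by
    have : Nonempty (S : Set V) := ⟨⟨hne.choose, hne.choose_spec⟩⟩
    refine ⟨fun a b => ?_⟩
    obtain ⟨_, h⟩ := reach_induce G S (hc a a.2 b b.2) a.2
    exact h
  refine ⟨hconn, fun a w hw => ?_⟩
  have h1 : (w.map (SimpleGraph.Embedding.induce (S : Set V)).toHom).IsCycle :=
    hw.map Subtype.val_injective
  have h2 := SimpleGraph.egirth_le_length h1
  rw [SimpleGraph.Walk.length_map] at h2
  have h3 : w.length ≤ S.card := by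
    have h4 := hw.support_nodup
    have h5 : w.support.tail.length = w.length := by
      rw [List.length_tail, SimpleGraph.Walk.length_support]
      omega
    have h6 := h4.length_le_card
    rw [h5] at h6
    have h7 : Fintype.card (S : Set V) = S.card := Fintype.card_coe S
    rw [h7] at h6
    exact h6
  have h4 : ((w.length : ℕ) : ℕ∞) ≤ ((R0 + 1 : ℕ) : ℕ∞) := by
    exact_mod_cast (by omega : w.length ≤ R0 + 1)
  exact absurd (lt_of_lt_of_le hg (h2.trans h4)) (lt_irrefl _)

/-- `dd` is the sum of the degrees -/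
theorem dd_eq [Fintype V] (ht : (G.induce (S : Set V)).IsTree) : dd G S + 2 = 2 * S.card := by
  have h1 := (G.induce (S : Set V)).sum_degrees_eq_twice_card_edges
  have h2 := ht.card_edgeFinset
  have h3 : Fintype.card (S : Set V) = S.card := Fintype.card_coe S
  have h4 : ∑ v : (S : Set V), (G.induce (S : Set V)).degree v = dd G S := by
    unfold dd
    rw [← Finset.sum_coe_sort S]
    refine Finset.sum_congr rfl fun v _ => ?_
    rw [← SimpleGraph.card_neighborFinset_eq_degree]
    refine Finset.card_bij (fun a _ => (a : V)) ?_ ?_ ?_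
    · intro a ha
      rw [SimpleGraph.mem_neighborFinset] at ha
      rw [mem_filter]
      exact ⟨a.2, ha⟩
    · intro a _ b _ h
      exact Subtype.ext h
    · intro b hb
      rw [mem_filter] at hb
      refine ⟨⟨b, hb.1⟩, ?_, rfl⟩
      rw [SimpleGraph.mem_neighborFinset]
      exact hb.2
  rw [h4] at h1
  omega

/-- at most one neighbour in `S` -/
theorem one_nbr [Fintype V] {R0 : ℕ} (hg : ((R0 + 1 : ℕ) : ℕ∞) < G.egirth)
    (hS : S.card ≤ R0) (hc : ∀ u ∈ S, ∀ v ∈ S, (res G S).Reachable u v) {w a b : V} (hw : w ∉ S)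
    (ha : a ∈ S) (hb : b ∈ S) (haw : G.Adj w a) (hbw : G.Adj w b) : a = b := by
  by_contra hne
  obtain ⟨_, h⟩ := reach_induce G S (hc a ha b hb) ha
  obtain ⟨q, hq⟩ := h.exists_isPath
  have hlen : q.length < S.card := by
    have := hq.length_lt
    have h7 : Fintype.card (S : Set V) = S.card := Fintype.card_coe S
    rwa [h7] at this
  obtain ⟨r, hr, hrS, hrl⟩ : ∃ r : G.Walk a b, r.IsPath ∧ (∀ x ∈ r.support, x ∈ S) ∧
      r.length = q.length := by
    refine ⟨q.map (SimpleGraph.Embedding.induce (S : Set V)).toHom,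
      hq.map Subtype.val_injective, ?_, SimpleGraph.Walk.length_map _ _⟩
    intro x hx
    have hx' := (SimpleGraph.Walk.support_map (SimpleGraph.Embedding.induce (S : Set V)).toHom q) ▸ hx
    rw [List.mem_map] at hx'
    obtain ⟨y, _, rfl⟩ := hx'
    exact y.2
  have hp : (SimpleGraph.Walk.cons haw r).IsPath := by
    rw [SimpleGraph.Walk.cons_isPath_iff]
    exact ⟨hr, fun h => hw (hrS _ h)⟩
  have hcyc : (SimpleGraph.Walk.cons hbw.symm (SimpleGraph.Walk.cons haw r)).IsCycle := by
    rw [SimpleGraph.Walk.cons_isCycle_iff]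
    refine ⟨hp, fun h => ?_⟩
    rw [SimpleGraph.Walk.edges_cons, List.mem_cons] at h
    rcases h with h | h
    · rw [Sym2.eq_iff] at h
      rcases h with ⟨h1, _⟩ | ⟨h1, _⟩
      · exact hw (h1 ▸ hb)
      · exact hne h1.symm
    · exact hw (hrS _ (r.snd_mem_support_of_mem_edges h))
  have h2 := SimpleGraph.egirth_le_length hcyc
  have h3 : (SimpleGraph.Walk.cons hbw.symm (SimpleGraph.Walk.cons haw r)).length ≤ R0 + 1 := by
    rw [SimpleGraph.Walk.length_cons, SimpleGraph.Walk.length_cons, hrl]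
    omega
  have h4 : (((SimpleGraph.Walk.cons hbw.symm (SimpleGraph.Walk.cons haw r)).length : ℕ) : ℕ∞) ≤
      ((R0 + 1 : ℕ) : ℕ∞) := by
    exact_mod_cast h3
  exact absurd (lt_of_lt_of_le hg (h2.trans h4)) (lt_irrefl _)

/-- double counting -/
theorem card_bd [Fintype V] (h1 : ∀ w, w ∉ S → ∀ a ∈ S, ∀ b ∈ S, G.Adj w a → G.Adj w b → a = b) :
    (bd G S).card + dd G S = ∑ v ∈ S, (univ.filter fun w => G.Adj v w).card := by
  have h2 : ∀ v ∈ S, (univ.filter fun w => G.Adj v w).card =
      (Sᶜ.filter fun w => G.Adj v w).card + (S.filter fun w => G.Adj v w).card := by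
    intro v _
    rw [← card_union_of_disjoint, ← filter_union]
    · congr 2
      rw [union_comm]
      exact (union_compl S).symm
    · exact disjoint_filter_filter (disjoint_compl_left (a := S))
  rw [sum_congr rfl h2, sum_add_distrib]
  congr 1
  have h3 : ∑ v ∈ S, (Sᶜ.filter fun w => G.Adj v w).card =
      ∑ w ∈ Sᶜ, (S.filter fun v => G.Adj v w).card :=
    sum_card_bipartiteAbove_eq_sum_card_bipartiteBelow (fun v w => G.Adj v w)
  rw [h3]
  have h4 : ∀ w ∈ Sᶜ, (S.filter fun v => G.Adj v w).card = if w ∈ bd G S then 1 else 0 := by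
    intro w hw
    rw [mem_compl] at hw
    by_cases hb : w ∈ bd G S
    · rw [if_pos hb]
      unfold bd at hb
      rw [mem_filter] at hb
      obtain ⟨-, -, s, hs, hsw⟩ := hb
      rw [card_eq_one]
      refine ⟨s, ?_⟩
      ext x
      rw [mem_filter, mem_singleton]
      constructor
      · rintro ⟨hx, hxw⟩
        exact h1 w hw x hx s hs hxw.symm hsw.symm
      · rintro rfl
        exact ⟨hs, hsw⟩
    · rw [if_neg hb, card_eq_zero, filter_eq_empty_iff]
      intro x hx hxw
      apply hb
      unfold bd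
      rw [mem_filter]
      exact ⟨mem_univ _, hw, x, hx, hxw⟩
  rw [sum_congr rfl h4, sum_ite_mem, sum_const, smul_eq_mul, mul_one]
  congr 1
  ext w
  rw [mem_inter, mem_compl]
  constructor
  · intro h
    refine ⟨?_, h⟩
    unfold bd at h
    rw [mem_filter] at h
    exact h.2.1
  · exact fun h => h.2

end

/-- JOB BND -/
theorem t_BND : S_BND := by
  intro k T R0 Γ _ π S hk hπ hg hne hS hc hin
  have h1 := card_bd (G := lay k T π) (S := S) fun w hw a ha b hb haw hbw =>
    one_nbr hg hS hc hw ha hb haw hbw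
  have h2 := dd_eq (isTree hg hne hS hc)
  have h3 : ∑ v ∈ S, (univ.filter fun w => (lay k T π).Adj v w).card = S.card * (2 * k) := by
    rw [sum_const_nat]
    intro v hv
    exact deg_inner k T π hπ v (hin v hv).1 (hin v hv).2
  rw [h3] at h1
  have h4 : (2 * k - 2) * S.card + 2 * S.card = S.card * (2 * k) := by
    rw [← add_mul, Nat.sub_add_cancel (by omega), mul_comm]
  omega

end Pool.Agent.Q150.LKC
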